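import Pool.Agent.Lib.MP_b5021c_nt.B.H82.Rst
import Pool.Agent.Lib.MP_b5021c_nt.H05.Rwd

/-!
# Board b5, chapter E0, row LATF: passing to an arbitrary sublattice containing the support
-/

namespace Pool.Agent.B5.H59

open scoped LaurentPolynomial

/-- Roots on the circle. -/
theorem circle_root (c : Circle) (n : ℤ) (hn : n ≠ 0) : ∃ d : Circle, d ^ n = c := by
  refine ⟨Circle.exp (Complex.arg (c : ℂ) / n), ?_⟩
  have h : Circle.exp (Complex.arg (c : ℂ) / n) ^ n = Circle.exp (n • (Complex.arg (c : ℂ) / n)) := by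
    have := map_zsmul Circle.expHom n (Complex.arg (c : ℂ) / n)
    exact (congrArg Additive.toMul this).symm
  rw [h, zsmul_eq_mul, mul_div_cancel₀ _ (by exact_mod_cast hn)]
  exact Circle.exp_arg c

/-- Characters extend from arbitrary sublattices. -/
theorem ext_char (L : Type) [AddCommGroup L] [Module.Free ℤ L] [Module.Finite ℤ L]
    (K : Submodule ℤ L) (u : AddChar K Circle) :
    ∃ u' : AddChar L Circle, ∀ a : K, u' (a : L) = u a := by
  classical
  obtain ⟨n, snf⟩ := K.smithNormalForm (Module.Free.chooseBasis ℤ L)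
  have ha : ∀ i, snf.a i ≠ 0 := by
    intro i h
    have h1 := snf.snf i
    rw [h, zero_smul] at h1
    exact snf.bN.ne_zero i (Subtype.ext h1)
  choose r hr using fun i => circle_root (u (snf.bN i)) (snf.a i) (ha i)
  let v : Module.Free.ChooseBasisIndex ℤ L → Additive Circle := fun j =>
    if h : ∃ i, snf.f i = j then Additive.ofMul (r h.choose) else 0
  let w : L →ₗ[ℤ] Additive Circle := snf.bM.constr ℤ v
  let u0 : K →ₗ[ℤ] Additive Circle := (AddChar.toAddMonoidHomEquiv u).toIntLinearMap
  have hv : ∀ i, v (snf.f i) = Additive.ofMul (r i) := by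
    intro i
    have hex : ∃ i', snf.f i' = snf.f i := ⟨i, rfl⟩
    have h2 : hex.choose = i := snf.f.injective hex.choose_spec
    change (if h : ∃ i', snf.f i' = snf.f i then Additive.ofMul (r h.choose) else 0) = _
    rw [dif_pos hex, h2]
  have hw : w.comp K.subtype = u0 := by
    refine snf.bN.ext fun i => ?_
    change w ((snf.bN i : K) : L) = u0 (snf.bN i)
    rw [snf.snf i, map_smul]
    have h3 : w (snf.bM (snf.f i)) = v (snf.f i) := snf.bM.constr_basis ℤ v (snf.f i)
    rw [h3, hv]
    change snf.a i • Additive.ofMul (r i) = Additive.ofMul (u (snf.bN i))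
    rw [← hr i]
    rfl
  refine ⟨AddChar.toAddMonoidHomEquiv.symm w.toAddMonoidHom, fun a => ?_⟩
  have h4 := LinearMap.congr_fun hw a
  exact congrArg Additive.toMul h4

/-- Functionals extend from arbitrary sublattices up to a multiple. -/
theorem ext_fun (L : Type) [AddCommGroup L] [Module.Free ℤ L] [Module.Finite ℤ L]
    (K : Submodule ℤ L) (k : K →+ ℤ) :
    ∃ (N : ℤ) (k' : L →+ ℤ), 0 < N ∧ ∀ a : K, k' (a : L) = N * k a := by
  classical
  obtain ⟨n, snf⟩ := K.smithNormalForm (Module.Free.chooseBasis ℤ L)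
  have ha : ∀ i, snf.a i ≠ 0 := by
    intro i h
    have h1 := snf.snf i
    rw [h, zero_smul] at h1
    exact snf.bN.ne_zero i (Subtype.ext h1)
  let N : ℤ := |∏ i, snf.a i|
  have hN : 0 < N := abs_pos.mpr (Finset.prod_ne_zero_iff.mpr fun i _ => ha i)
  have hdiv : ∀ i, snf.a i ∣ N := by
    intro i
    exact (dvd_abs _ _).mpr (Finset.dvd_prod_of_mem snf.a (Finset.mem_univ i))
  choose q hq using hdiv
  let v : Module.Free.ChooseBasisIndex ℤ L → ℤ := fun j =>
    if h : ∃ i, snf.f i = j then q h.choose * k (snf.bN h.choose) else 0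
  let w : L →ₗ[ℤ] ℤ := snf.bM.constr ℤ v
  have hv : ∀ i, v (snf.f i) = q i * k (snf.bN i) := by
    intro i
    have hex : ∃ i', snf.f i' = snf.f i := ⟨i, rfl⟩
    have h2 : hex.choose = i := snf.f.injective hex.choose_spec
    change (if h : ∃ i', snf.f i' = snf.f i then q h.choose * k (snf.bN h.choose) else 0) = _
    rw [dif_pos hex, h2]
  have hw : w.comp K.subtype = N • k.toIntLinearMap := by
    refine snf.bN.ext fun i => ?_
    change w ((snf.bN i : K) : L) = N • k (snf.bN i)
    rw [snf.snf i, map_smul]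
    have h3 : w (snf.bM (snf.f i)) = v (snf.f i) := snf.bM.constr_basis ℤ v (snf.f i)
    rw [h3, hv, smul_eq_mul, smul_eq_mul]
    conv_rhs => rw [hq i]
    ring
  refine ⟨N, w.toAddMonoidHom, hN, fun a => ?_⟩
  have h4 := LinearMap.congr_fun hw a
  exact h4

/-! ## Stability -/

section

variable {O : Type} [CommRing O] [Coef O] {L : Type} [AddCommGroup L]

/-- Slices along a multiple of a functional. -/
theorem sl_mul_eval (p : CA L) (u : AddChar L Circle) (lam mu : L →+ ℤ) (N : ℤ) (hN : 0 < N)
    (h : ∀ a ∈ p.coeff.support, lam a = N * mu a) (hp : Nn mu p) (s : ℂ) :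
    (sl u lam p).eval s = (sl u mu p).eval (s ^ N.toNat) := by
  unfold sl Finsupp.sum
  rw [Polynomial.eval_finset_sum, Polynomial.eval_finset_sum]
  refine Finset.sum_congr rfl fun a ha => ?_
  rw [Polynomial.eval_monomial, Polynomial.eval_monomial, h a ha, ← pow_mul]
  have h1 := hp a ha
  have h2 : (N * mu a).toNat = N.toNat * (mu a).toNat := Int.toNat_mul hN.le h1
  rw [h2]

/-- Stability is not changed by passing to a sublattice containing the support. -/
theorem stable_res [Module.Free ℤ L] [Module.Finite ℤ L] (G : AO O L) (K : Submodule ℤ L)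
    (hG : ∀ a ∈ supp G, a ∈ K) : Stable G ↔ Stable (res K G) := by
  have hG' : ∀ (z : Circle), ∀ a ∈ (spec z G).coeff.support, a ∈ K := by
    intro z a ha
    apply hG
    change G.coeff a ≠ 0
    intro h0
    rw [Finsupp.mem_support_iff, spec_coeff, h0, map_zero] at ha
    exact ha rfl
  have hc0 : (res K G).coeff 0 = G.coeff 0 := res_coeff K G 0
  constructor
  · rintro ⟨h0, lam, hlam, hst⟩
    refine ⟨by rw [hc0]; exact h0, lam.comp (incl K), ?_, ?_⟩
    · intro a ha ha0
      change 0 < lam (a : L)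
      refine hlam a ?_ fun h => ha0 (Subtype.ext h)
      rw [Finsupp.mem_support_iff] at ha ⊢
      rwa [res_coeff] at ha
    · intro z hz u s hs
      obtain ⟨u', hu'⟩ := ext_char L K u
      rw [hc0] at hz
      rw [H82.spec_res, H82.sl_res K (spec z G) (hG' z) u' u hu' lam (lam.comp (incl K)) fun _ => rfl]
      exact hst z hz u' s hs
  · rintro ⟨h0, mu, hmu, hst⟩
    obtain ⟨N, lam, hN, hlam⟩ := ext_fun L K mu
    rw [hc0] at h0
    refine ⟨h0, lam, ?_, ?_⟩
    · intro a ha ha0
      have haK : a ∈ K := hG a (Finsupp.mem_support_iff.1 ha)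
      rw [show lam a = N * mu ⟨a, haK⟩ from hlam ⟨a, haK⟩]
      refine mul_pos hN (hmu ⟨a, haK⟩ ?_ fun h => ha0 (congrArg Subtype.val h))
      rw [Finsupp.mem_support_iff] at ha ⊢
      rw [res_coeff]
      exact ha
    · intro z hz u s hs
      have h := hst z (by rw [hc0]; exact hz) (u.compAddMonoidHom (incl K)) (s ^ N.toNat) (by
        rw [norm_pow]
        exact pow_lt_one₀ (norm_nonneg _) hs (by omega))
      rw [← H82.sl_res K (spec z G) (hG' z) u (u.compAddMonoidHom (incl K)) (fun _ => rfl) lam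
        (lam.comp (incl K)) fun _ => rfl, ← H82.spec_res]
      rw [sl_mul_eval (spec z (res K G)) (u.compAddMonoidHom (incl K)) (lam.comp (incl K)) mu N hN
        (fun a _ => hlam a) ?_ s]
      · exact h
      · intro a ha
        by_cases ha0 : a = 0
        · rw [ha0, map_zero]
        · refine (hmu a ?_ ha0).le
          rw [Finsupp.mem_support_iff] at ha ⊢
          intro h1
          apply ha
          rw [spec_coeff, h1, map_zero]

end

/-! ## Irreducibility, unitarity, rank, rays -/

section

variable {O : Type} [CommRing O] [IsDomain O] [IsPrincipalIdealRing O] [Coef O] {L : Type}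
  [AddCommGroup L] [Module.Free ℤ L] [Module.Finite ℤ L]

theorem isUnit_inc (hU : UnitAS) (K : Submodule ℤ L) (w : AO O K) (hw : IsUnit (H05.inc K w)) :
    IsUnit w := by
  obtain ⟨a, c, hc, hac⟩ := (hU O L (H05.inc K w)).1 hw
  have haK : a ∈ K := by
    by_contra h2
    have h3 := H05.inc_coeff_not K w a h2
    rw [hac, AddMonoidAlgebra.coeff_single, Finsupp.single_eq_same] at h3
    exact hc.ne_zero h3
  refine (hU O K w).2 ⟨⟨a, haK⟩, c, hc, ?_⟩
  apply H05.inc_inj K
  rw [H05.inc_single, hac]

theorem irreducible_res (hU : UnitAS) (G : AO O L) (K : Submodule ℤ L) (hG : ∀ a ∈ supp G, a ∈ K)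
    (h : Irreducible G) : Irreducible (res K G) := by
  have hGi := H05.inc_res K G hG
  refine ⟨?_, ?_⟩
  · intro hu
    apply h.not_isUnit
    rw [← hGi]
    exact hu.map (H05.inc K)
  · intro x y hxy
    have h1 : G = H05.inc K x * H05.inc K y := by
      rw [← map_mul, ← hxy, hGi]
    rcases h.isUnit_or_isUnit h1 with h2 | h2
    · exact Or.inl (isUnit_inc hU K x h2)
    · exact Or.inr (isUnit_inc hU K y h2)

theorem unitary_res (hU : UnitAS) (G : AO O L) (K : Submodule ℤ L) (hG : ∀ a ∈ supp G, a ∈ K)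
    (hG0 : G ≠ 0) : Unitary G ↔ Unitary (res K G) := by
  have hGi := H05.inc_res K G hG
  constructor
  · rintro ⟨u, hu⟩
    obtain ⟨a, c, hc, hac⟩ := (hU O L (u : AO O L)).1 u.isUnit
    rw [hac] at hu
    have haK : a ∈ K := by
      obtain ⟨b, hb⟩ : ∃ b, b ∈ supp G := by
        by_contra hcon
        push Not at hcon
        apply hG0
        apply AddMonoidAlgebra.ext
        apply Finsupp.ext
        intro b
        by_contra h2
        exact hcon b h2
      have h2 : (sharp G * AddMonoidAlgebra.single a c).coeff b = (sharp G).coeff (b - a) * c := by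
        rw [AddMonoidAlgebra.coeff_mul_single_eq_coeff_mul (b - a)]
        intro m' _
        constructor
        · intro h3
          rw [← h3]
          abel
        · intro h3
          rw [h3]
          abel
      have h4 : -(b - a) ∈ K := by
        apply hG
        intro h5
        apply hb
        rw [← hu, h2, sharp_coeff', h5, map_zero, zero_mul]
      have h6 := K.add_mem h4 (hG b hb)
      have h7 : -(b - a) + b = a := by abel
      rwa [h7] at h6
    have hu' : IsUnit (AddMonoidAlgebra.single (⟨a, haK⟩ : K) c : AO O K) :=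
      (hU O K _).2 ⟨⟨a, haK⟩, c, hc, rfl⟩
    obtain ⟨v, hv⟩ := hu'
    refine ⟨v, ?_⟩
    rw [hv]
    apply H05.inc_inj K
    rw [map_mul, H05.inc_sharp, hGi, H05.inc_single]
    exact hu
  · intro h
    have h1 : Associated (H05.inc K (sharp (res K G))) (H05.inc K (res K G)) := h.map (H05.inc K)
    rwa [H05.inc_sharp, hGi] at h1

omit [IsDomain O] [IsPrincipalIdealRing O] in
theorem rk_res (hR : RkS) (G : AO O L) (K : Submodule ℤ L) (hG : ∀ a ∈ supp G, a ∈ K) :
    rk (supp (res K G)) = rk (supp G) := by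
  have h1 : (incl K) '' (supp (res K G)) = supp G := by
    ext b
    constructor
    · rintro ⟨x, hx, rfl⟩
      exact hx
    · intro hb
      exact ⟨⟨b, hG b hb⟩, hb, rfl⟩
  rw [← h1]
  exact ((hR K L).2.2.2.1 (incl K) (supp (res K G)) (H05.incl_inj K)).symm

omit [IsDomain O] [IsPrincipalIdealRing O] in
theorem ray_res (G : AO O L) (K : Submodule ℤ L) (hG : ∀ a ∈ supp G, a ∈ K) (b : K) :
    Ray (res K G) b ↔ Ray G (b : L) := by
  constructor
  · rintro ⟨hb, hb0, mu, hmb, hmu⟩
    obtain ⟨N, lam, hN, hlam⟩ := ext_fun L K mu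
    refine ⟨hb, fun h => hb0 (Subtype.ext h), lam, ?_, ?_⟩
    · rw [hlam b, hmb, mul_zero]
    · intro a ha ha0 hab
      rw [show lam a = N * mu ⟨a, hG a ha⟩ from hlam ⟨a, hG a ha⟩]
      exact mul_pos hN (hmu ⟨a, hG a ha⟩ ha (fun h => ha0 (congrArg Subtype.val h))
        (fun h => hab (congrArg Subtype.val h)))
  · rintro ⟨hb, hb0, lam, hlb, hlam⟩
    refine ⟨hb, fun h => hb0 (congrArg Subtype.val h), lam.comp (incl K), hlb, ?_⟩
    intro a ha ha0 hab
    exact hlam a ha (fun h => ha0 (Subtype.ext h)) (fun h => hab (Subtype.ext h))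

end

end Pool.Agent.B5.H59
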