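import Pool.Agent.Lib.MP_b5021c_nt.IfaceE0
import Pool.Agent.Lib.MP_b5021c_nt.E.H59.Lat

/-!
# Board b5, row E0_LAT: restriction to the lattice generated by the support
-/

namespace Pool.Agent.B5.H59

open scoped LaurentPolynomial

theorem latRes (hU : UnitAS) : LatResS := by
  intro O _ _ _ _ L _ _ _ G K hK h0
  have hG : ∀ a ∈ supp G, a ∈ K := by
    intro a ha
    rw [hK]
    exact Submodule.subset_span ha
  have hG0 : G ≠ 0 := by
    rintro rfl
    exact h0 rfl
  have hsp : Submodule.span ℤ (supp (res K G)) = ⊤ := by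
    subst hK
    exact Submodule.span_span_coe_preimage
  have hfr : Module.finrank ℤ K = rk (supp G) := by
    rw [hK]
    rfl
  refine ⟨irreducible_res hU G K hG, (unitary_res hU G K hG hG0).1, (stable_res G K hG).1, hsp, ?_,
    hfr⟩
  rw [← hfr]
  unfold rk
  rw [hsp]
  exact finrank_top ℤ K

end Pool.Agent.B5.H59
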